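import Pool.Agent.Q262.CE.Geo

set_option autoImplicit false

namespace Pool.Agent.Results.MP_4e5648_mp.CircleEllipse

/-- Q2 of MP_4e5648_mp: for every ellipse with eccentricity `0 < e < 1` and focus `F` in
3-space and every circle centred at `F` (in any plane), the squared distance of their points has
at most ten stationary pairs. -/
theorem result :
    ∀ (F u₁ w₁ u₂ w₂ : EuclideanSpace ℝ (Fin 3)) (a e r : ℝ)
      (P P' Q Q' : ℝ → EuclideanSpace ℝ (Fin 3)),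
      0 < a → 0 < e → e < 1 → 0 < r →
      ‖u₁‖ = 1 → ‖w₁‖ = 1 → inner ℝ u₁ w₁ = 0 →
      ‖u₂‖ = 1 → ‖w₂‖ = 1 → inner ℝ u₂ w₂ = 0 →
      (∀ s : ℝ, P s = F + (a * (e + Real.cos s)) • u₁
          + (a * Real.sqrt (1 - e ^ 2) * Real.sin s) • w₁) →
      (∀ s : ℝ, P' s = (-(a * Real.sin s)) • u₁
          + (a * Real.sqrt (1 - e ^ 2) * Real.cos s) • w₁) →
      (∀ t : ℝ, Q t = F + (r * Real.cos t) • u₂ + (r * Real.sin t) • w₂) →
      (∀ t : ℝ, Q' t = (-(r * Real.sin t)) • u₂ + (r * Real.cos t) • w₂) →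
      ({x : EuclideanSpace ℝ (Fin 3) × EuclideanSpace ℝ (Fin 3) |
          ∃ s t : ℝ, x = (P s, Q t) ∧ inner ℝ (P s - Q t) (P' s) = 0 ∧
            inner ℝ (P s - Q t) (Q' t) = 0}).Finite ∧
      ({x : EuclideanSpace ℝ (Fin 3) × EuclideanSpace ℝ (Fin 3) |
          ∃ s t : ℝ, x = (P s, Q t) ∧ inner ℝ (P s - Q t) (P' s) = 0 ∧
            inner ℝ (P s - Q t) (Q' t) = 0}).ncard ≤ 10 := by
  intro F u₁ w₁ u₂ w₂ a e r P P' Q Q' ha he he1 hr hu₁ hw₁ h₁ hu₂ hw₂ h₂ hP hP' hQ hQ'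
  have h := Pool.Agent.Q262.CE.main F u₁ w₁ u₂ w₂ a e r P P' Q Q' ha he he1 hr hu₁ hw₁ h₁
    hu₂ hw₂ h₂ hP hP' hQ hQ'
  exact Set.encard_le_coe_iff_finite_ncard_le.1 h

end Pool.Agent.Results.MP_4e5648_mp.CircleEllipse
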